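import Pool.Agent.H41.Circ.Dec

/-!
Circuit decompositions of Eulerian binary matroids with few circuits.
-/

set_option autoImplicit false

namespace Pool.Agent.Results.MP_c35a4c_co.AlmostAllSizes

open Finset Pool.Agent.H41.Circ

theorem pow_aux : ∀ T : ℕ, 6 ≤ T → 16 * (T + 1) ^ 2 ≤ 15 * 2 ^ T := by
  intro T hT
  induction T, hT using Nat.le_induction with
  | base => norm_num
  | succ n hn ih =>
    have h1 : 16 * (n + 1 + 1) ^ 2 ≤ 2 * (16 * (n + 1) ^ 2) := by nlinarith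
    calc 16 * (n + 1 + 1) ^ 2 ≤ 2 * (16 * (n + 1) ^ 2) := h1
      _ ≤ 2 * (15 * 2 ^ n) := Nat.mul_le_mul_left _ ih
      _ = 15 * 2 ^ (n + 1) := by ring

theorem numeric {r : ℕ} (hr : 24 ≤ r) {a : ℝ} (ha0 : 0 ≤ a) (ha : a ≤ 2 ^ r) :
    a / ((r : ℝ) - 2 * (0 : ℕ) - 4) + (2 ^ (r - r / 4) / 3 +
      18 / (r : ℝ) ^ 2 * (2 ^ (r - 0) - 2 ^ (r - r / 4))) ≤
      a / ((r : ℝ) + 1) + 200 * 2 ^ r / ((r : ℝ) + 1) ^ 2 := by
  have hr' : (24 : ℝ) ≤ r := by exact_mod_cast hr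
  set q : ℝ := 2 ^ r with hq
  have hq0 : 0 < q := by positivity
  have hp0 : (0 : ℝ) < 2 ^ (r - r / 4) := by positivity
  have hs0 : 0 < ((r : ℝ) + 1) ^ 2 := by positivity
  -- first term
  have h1 : a / ((r : ℝ) - 2 * (0 : ℕ) - 4) ≤ a / ((r : ℝ) + 1) + 10 * q / ((r : ℝ) + 1) ^ 2 := by
    have e : (r : ℝ) - 2 * (0 : ℕ) - 4 = r - 4 := by push_cast; ring
    rw [e]
    have e2 : a / ((r : ℝ) - 4) = a / ((r : ℝ) + 1) + 5 * a / (((r : ℝ) - 4) * (r + 1)) := by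
      have : (r : ℝ) - 4 ≠ 0 := by linarith
      field_simp; ring
    rw [e2]
    have e3 : 5 * a / (((r : ℝ) - 4) * (r + 1)) ≤ 10 * q / ((r : ℝ) + 1) ^ 2 := by
      have hpos : 0 < ((r : ℝ) - 4) * (r + 1) := mul_pos (by linarith) (by linarith)
      rw [div_le_div_iff₀ hpos hs0]
      have e4 : ((r : ℝ) + 1) ^ 2 ≤ 2 * (((r : ℝ) - 4) * (r + 1)) := by nlinarith
      calc 5 * a * ((r : ℝ) + 1) ^ 2 ≤ 5 * q * (2 * (((r : ℝ) - 4) * (r + 1))) :=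
            mul_le_mul (by linarith) e4 (by positivity) (by positivity)
        _ = 10 * q * (((r : ℝ) - 4) * (r + 1)) := by ring
    linarith
  -- second term
  have h2 : (2 : ℝ) ^ (r - r / 4) / 3 ≤ 5 * q / ((r : ℝ) + 1) ^ 2 := by
    rw [div_le_div_iff₀ (by norm_num) hs0]
    have e1 : q = 2 ^ (r - r / 4) * 2 ^ (r / 4) := by rw [hq, ← pow_add]; congr 1; omega
    rw [e1]
    have e2 := pow_aux (r / 4) (by omega)
    have e3 : (r + 1) ^ 2 ≤ 16 * (r / 4 + 1) ^ 2 := by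
      have : r + 1 ≤ 4 * (r / 4 + 1) := by omega
      calc (r + 1) ^ 2 ≤ (4 * (r / 4 + 1)) ^ 2 := Nat.pow_le_pow_left this 2
        _ = 16 * (r / 4 + 1) ^ 2 := by ring
    have e4 : ((r : ℝ) + 1) ^ 2 ≤ 15 * 2 ^ (r / 4) := by exact_mod_cast e3.trans e2
    calc (2 : ℝ) ^ (r - r / 4) * ((r : ℝ) + 1) ^ 2 ≤ 2 ^ (r - r / 4) * (15 * 2 ^ (r / 4)) :=
          mul_le_mul_of_nonneg_left e4 hp0.le
      _ = 5 * (2 ^ (r - r / 4) * 2 ^ (r / 4)) * 3 := by ring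
  -- third term
  have h3 : 18 / (r : ℝ) ^ 2 * ((2 : ℝ) ^ (r - 0) - 2 ^ (r - r / 4)) ≤
      36 * q / ((r : ℝ) + 1) ^ 2 := by
    have e1 : (2 : ℝ) ^ (r - 0) - 2 ^ (r - r / 4) ≤ q := by
      rw [Nat.sub_zero, ← hq]; linarith
    have e2 : 18 / (r : ℝ) ^ 2 ≤ 36 / ((r : ℝ) + 1) ^ 2 := by
      rw [div_le_div_iff₀ (by positivity) hs0]; nlinarith
    calc 18 / (r : ℝ) ^ 2 * ((2 : ℝ) ^ (r - 0) - 2 ^ (r - r / 4)) ≤
        18 / (r : ℝ) ^ 2 * q := mul_le_mul_of_nonneg_left e1 (by positivity)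
      _ ≤ 36 / ((r : ℝ) + 1) ^ 2 * q := mul_le_mul_of_nonneg_right e2 hq0.le
      _ = 36 * q / ((r : ℝ) + 1) ^ 2 := by ring
  have h4 : 200 * q / ((r : ℝ) + 1) ^ 2 = 10 * q / ((r : ℝ) + 1) ^ 2 + 5 * q / ((r : ℝ) + 1) ^ 2 +
      36 * q / ((r : ℝ) + 1) ^ 2 + 149 * (q / ((r : ℝ) + 1) ^ 2) := by ring
  have h5 : 0 ≤ q / ((r : ℝ) + 1) ^ 2 := by positivity
  rw [h4]
  linarith

/-- Every Eulerian binary matroid `M` (a finite set of nonzero vectors over the field with two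
elements whose sum is zero) of rank `r` splits into at most `|M|/(r+1) + 200 * 2^r/(r+1)^2`
circuits; so the conjectured bound `⌈(2^r - 1)/(r+1)⌉` holds unless
`|M| > 2^r - 1 - 200 * 2^r/(r+1)`. -/
theorem result : ∀ (n r : ℕ) (M : Finset (Fin n → ZMod 2)), (0 : Fin n → ZMod 2) ∉ M →
    ∑ v ∈ M, v = 0 →
    Module.finrank (ZMod 2) (Submodule.span (ZMod 2) (M : Set (Fin n → ZMod 2))) = r →
    ∃ P : Finpartition M,
      (∀ C ∈ P.parts, C.Nonempty ∧ ∑ v ∈ C, v = 0 ∧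
        ∀ D ⊆ C, D.Nonempty → ∑ v ∈ D, v = 0 → D = C) ∧
      (P.parts.card : ℝ) ≤ (M.card : ℝ) / ((r : ℝ) + 1) + 200 * 2 ^ r / ((r : ℝ) + 1) ^ 2 ∧
      ((M.card : ℝ) ≤ 2 ^ r - 1 - 200 * 2 ^ r / ((r : ℝ) + 1) →
        P.parts.card ≤ ⌈((2 : ℝ) ^ r - 1) / ((r : ℝ) + 1)⌉₊) := by
  classical
  intro n r M h0 hs hr
  set W := Submodule.span (ZMod 2) (M : Set (Fin n → ZMod 2)) with hW
  set U : Finset (Fin n → ZMod 2) := univ.filter fun x => x ∈ W with hU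
  have hUc : U.card = 2 ^ r := by
    have h1 : Fintype.card W = 2 ^ r := by
      rw [Module.card_eq_pow_finrank (K := ZMod 2) (V := W), ZMod.card, hr]
    rw [← h1, hU, ← Fintype.card_subtype]
  have hU0 : (0 : Fin n → ZMod 2) ∈ U := by
    rw [hU, Finset.mem_filter]; exact ⟨Finset.mem_univ _, W.zero_mem⟩
  have hUa : ∀ x ∈ U, ∀ y ∈ U, x + y ∈ U := by
    intro x hx y hy
    rw [hU, Finset.mem_filter] at hx hy ⊢
    exact ⟨Finset.mem_univ _, W.add_mem hx.2 hy.2⟩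
  have hMU : M ⊆ U := by
    intro x hx
    rw [hU, Finset.mem_filter]
    exact ⟨Finset.mem_univ _, Submodule.subset_span hx⟩
  have hMc : M.card < 2 ^ r := by
    rw [← hUc]
    exact Finset.card_lt_card ⟨hMU, fun h => h0 (h hU0)⟩
  have hs0 : (0 : ℝ) < (r : ℝ) + 1 := by positivity
  have key : ∃ k, Dec M k ∧
      (k : ℝ) ≤ (M.card : ℝ) / ((r : ℝ) + 1) + 200 * 2 ^ r / ((r : ℝ) + 1) ^ 2 := by
    by_cases hr24 : 24 ≤ r
    · obtain ⟨k, hk, hkb⟩ := bound_aux (U := U) (r := r) (T := r / 4) hr24 (by omega) hUc.le hU0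
        hUa (r / 4) 0 (by omega) M hMU h0 hs (by simpa using hMc)
      refine ⟨k, hk, hkb.trans (numeric hr24 (Nat.cast_nonneg _) ?_)⟩
      exact_mod_cast hMc.le
    · obtain ⟨k, hk, hk3⟩ := dec_trivial M.card M rfl h0 hs
      refine ⟨k, hk, ?_⟩
      have h1 : 3 * (k : ℝ) ≤ M.card := by exact_mod_cast hk3
      have h2 : (M.card : ℝ) ≤ 2 ^ r := by exact_mod_cast hMc.le
      have h3 : (0 : ℝ) ≤ (M.card : ℝ) / ((r : ℝ) + 1) := by positivity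
      have h4 : (2 : ℝ) ^ r / 3 ≤ 200 * 2 ^ r / ((r : ℝ) + 1) ^ 2 := by
        rw [div_le_div_iff₀ (by norm_num) (by positivity)]
        have h5 : ((r : ℝ) + 1) ^ 2 ≤ 600 := by
          have : (r : ℝ) ≤ 23 := by exact_mod_cast (by omega : r ≤ 23)
          nlinarith [Nat.cast_nonneg (α := ℝ) r]
        have h6 : (0 : ℝ) < 2 ^ r := by positivity
        nlinarith
      linarith
  obtain ⟨k, ⟨P, hP, hPc, hPd, hPu⟩, hkb⟩ := key
  have hk' : (P.card : ℝ) ≤ (M.card : ℝ) / ((r : ℝ) + 1) + 200 * 2 ^ r / ((r : ℝ) + 1) ^ 2 := by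
    rw [hP]; exact hkb
  refine ⟨⟨P, ?_, ?_, ?_⟩, ?_, ?_, ?_⟩
  · exact Finset.supIndep_iff_pairwiseDisjoint.mpr hPd
  · rw [Finset.sup_eq_biUnion]; exact hPu
  · intro hbot
    exact (hPc _ hbot).1.ne_empty rfl
  · exact hPc
  · exact hk'
  · intro hM
    have h1 : (P.card : ℝ) ≤ ((2 : ℝ) ^ r - 1) / ((r : ℝ) + 1) := by
      refine hk'.trans ?_
      have h2 : 200 * (2 : ℝ) ^ r / ((r : ℝ) + 1) ^ 2 = (200 * 2 ^ r / ((r : ℝ) + 1)) / (r + 1) := by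
        rw [div_div, pow_two]
      rw [h2, ← add_div]
      exact div_le_div_of_nonneg_right (by linarith) hs0.le
    exact_mod_cast h1.trans (Nat.le_ceil _)

end Pool.Agent.Results.MP_c35a4c_co.AlmostAllSizes
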