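import Pool.Agent.EB58.Final

/-!
Q1 of MP_c35a4c_co for all ranks `r ≥ 4000`: every Eulerian binary matroid `M` of rank `r`
(a finite set of nonzero vectors with sum zero) is partitioned into at most
`⌈(2 ^ r - 1) / (r + 1)⌉` circuits.

Proof: `Pool/Agent/EB58`. If `M` is far from complete, `AlmostAllSizes` applies. If the
complement has size between `2 ^ (r - 2 ⌊r / 20⌋)` and `202 * 2 ^ r / (r + 1)`
(`EB58/Regime2`), a random quotient makes the complement equidistributed and a greedy
procedure in the quotient loses less than the complement gains. If the complement is at most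
`2 ^ (r - 2 ⌊r / 20⌋)` (`EB58/Regime1`), then `M` is written in a product model
`F_2 ^ m × GF(2 ^ k)` in which almost all of `M` is partitioned algebraically into circuits of
size `r + 1`, and the defects are absorbed one by one.
-/

set_option autoImplicit false

namespace Pool.Agent.Results.MP_c35a4c_co.AllLargeRanks

theorem result : ∀ (n r : ℕ) (M : Finset (Fin n → ZMod 2)), 4000 ≤ r →
    (0 : Fin n → ZMod 2) ∉ M → ∑ v ∈ M, v = 0 →
    Module.finrank (ZMod 2) (Submodule.span (ZMod 2) (M : Set (Fin n → ZMod 2))) = r →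
    ∃ P : Finpartition M,
      (∀ C ∈ P.parts, C.Nonempty ∧ ∑ v ∈ C, v = 0 ∧
        ∀ D ⊆ C, D.Nonempty → ∑ v ∈ D, v = 0 → D = C) ∧
      P.parts.card ≤ ⌈((2 : ℝ) ^ r - 1) / ((r : ℝ) + 1)⌉₊ := by
  intro n r M hr h0 hs hM
  obtain ⟨P, h1, h2, -⟩ := Pool.Agent.EB58.final n r M hr h0 hs hM
  exact ⟨P, h1, h2⟩

end Pool.Agent.Results.MP_c35a4c_co.AllLargeRanks
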